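import Mathlib

/-!
# Upper minus domination can exceed signed domination in a cubic graph

We exhibit a connected cubic graph `G` on 16 vertices with
`signedDominationNumber G < upperMinusDominationNumber G`.
-/

namespace Pool.Agent.Results.MP_260dff_co.CubicCounterexample

open Finset

section Definitions

variable {V : Type} [Fintype V] [DecidableEq V]

/-- The value `f(N[v])` of `f` on the closed neighbourhood `N[v]` of `v`. -/
def nbhdSum (G : SimpleGraph V) [DecidableRel G.Adj] (f : V → ℤ) (v : V) : ℤ :=
  ∑ u ∈ insert v (G.neighborFinset v), f u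

/-- The weight `f(V)` of `f`. -/
def weight (f : V → ℤ) : ℤ := ∑ v, f v

/-- `f` is a signed dominating function of `G`: values in `{-1, 1}` and `f(N[v]) ≥ 1`. -/
def IsSignedDominating (G : SimpleGraph V) [DecidableRel G.Adj] (f : V → ℤ) : Prop :=
  (∀ v, f v = -1 ∨ f v = 1) ∧ ∀ v, 1 ≤ nbhdSum G f v

/-- `f` is a minus dominating function of `G`: values in `{-1, 0, 1}` and `f(N[v]) ≥ 1`. -/
def IsMinusDominating (G : SimpleGraph V) [DecidableRel G.Adj] (f : V → ℤ) : Prop :=
  (∀ v, f v = -1 ∨ f v = 0 ∨ f v = 1) ∧ ∀ v, 1 ≤ nbhdSum G f v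

/-- `f` is a minimal minus dominating function of `G`: no minus dominating function `g ≠ f`
satisfies `g u ≤ f u` for all `u`. -/
def IsMinimalMinusDominating (G : SimpleGraph V) [DecidableRel G.Adj] (f : V → ℤ) : Prop :=
  IsMinusDominating G f ∧ ¬ ∃ g : V → ℤ, IsMinusDominating G g ∧ g ≠ f ∧ ∀ u, g u ≤ f u

/-- The signed domination number: the minimum weight of a signed dominating function. -/
noncomputable def signedDominationNumber (G : SimpleGraph V) [DecidableRel G.Adj] : ℤ :=
  sInf {w | ∃ f : V → ℤ, IsSignedDominating G f ∧ weight f = w}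

/-- The upper minus domination number: the maximum weight of a minimal minus dominating
function. -/
noncomputable def upperMinusDominationNumber (G : SimpleGraph V) [DecidableRel G.Adj] : ℤ :=
  sSup {w | ∃ f : V → ℤ, IsMinimalMinusDominating G f ∧ weight f = w}

end Definitions

section General

variable {V : Type} [Fintype V] [DecidableEq V]

theorem sdn_le (G : SimpleGraph V) [DecidableRel G.Adj] (f : V → ℤ)
    (hf : IsSignedDominating G f) : signedDominationNumber G ≤ weight f := by
  apply csInf_le
  · refine ⟨-(Fintype.card V : ℤ), ?_⟩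
    rintro w ⟨g, hg, rfl⟩
    have h1 : ∑ _v : V, (-1 : ℤ) ≤ ∑ v, g v := by
      apply Finset.sum_le_sum
      intro v _
      rcases hg.1 v with h | h <;> omega
    have h2 : ∑ _v : V, (-1 : ℤ) = -(Fintype.card V : ℤ) := by
      simp
    unfold weight
    omega
  · exact ⟨f, hf, rfl⟩

theorem le_umdn (G : SimpleGraph V) [DecidableRel G.Adj] (f : V → ℤ)
    (hf : IsMinimalMinusDominating G f) : weight f ≤ upperMinusDominationNumber G := by
  apply le_csSup
  · refine ⟨(Fintype.card V : ℤ), ?_⟩
    rintro w ⟨g, hg, rfl⟩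
    have h1 : ∑ v, g v ≤ ∑ _v : V, (1 : ℤ) := by
      apply Finset.sum_le_sum
      intro v _
      rcases hg.1.1 v with h | h | h <;> omega
    have h2 : ∑ _v : V, (1 : ℤ) = (Fintype.card V : ℤ) := by
      simp
    unfold weight
    omega
  · exact ⟨f, hf, rfl⟩

/-- The local criterion for minimality. -/
theorem minimal_of_local (G : SimpleGraph V) [DecidableRel G.Adj] (f : V → ℤ)
    (hf : IsMinusDominating G f)
    (h : ∀ v, f v = -1 ∨ ∃ u, u ∈ insert v (G.neighborFinset v) ∧ nbhdSum G f u = 1) :
    IsMinimalMinusDominating G f := by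
  refine ⟨hf, ?_⟩
  rintro ⟨g, hg, hne, hle⟩
  obtain ⟨v, hv⟩ : ∃ v, g v ≠ f v := by
    by_contra hcon
    push Not at hcon
    exact hne (funext hcon)
  have hlt : g v < f v := lt_of_le_of_ne (hle v) hv
  rcases h v with h1 | ⟨u, hu, hu1⟩
  · rcases hg.1 v with h2 | h2 | h2 <;> omega
  · have hvu : v ∈ insert u (G.neighborFinset u) := by
      rw [Finset.mem_insert, SimpleGraph.mem_neighborFinset] at hu ⊢
      rcases hu with h3 | h3
      · exact Or.inl h3.symm
      · exact Or.inr h3.symm
    have hs : nbhdSum G g u < nbhdSum G f u := by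
      unfold nbhdSum
      exact Finset.sum_lt_sum (fun i _ => hle i) ⟨v, hvu, hlt⟩
    have := hg.2 u
    omega

end General

/-- Neighbour lists of the graph. -/
def nbr : Fin 16 → List (Fin 16) :=
  ![[1, 2, 3], [0, 4, 5], [0, 3, 6], [0, 2, 7], [1, 8, 9], [1, 6, 8], [2, 5, 10], [3, 11, 12],
    [4, 5, 13], [4, 10, 14], [6, 9, 12], [7, 14, 15], [7, 10, 15], [8, 14, 15], [9, 11, 13],
    [11, 12, 13]]

/-- The cubic graph on 16 vertices. -/
def G : SimpleGraph (Fin 16) where
  Adj a b := b ∈ nbr a
  symm := by
    constructor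
    decide
  loopless := by
    constructor
    decide

instance : DecidableRel G.Adj := fun a b => inferInstanceAs (Decidable (b ∈ nbr a))

/-- A minimal minus dominating function of weight 9. -/
def f : Fin 16 → ℤ := ![1, 1, -1, 0, 1, 0, 1, 1, 1, 1, 1, 0, 1, -1, 1, 1]

/-- A signed dominating function of weight 8. -/
def g : Fin 16 → ℤ := ![-1, 1, 1, 1, 1, 1, 1, 1, -1, 1, -1, -1, 1, 1, 1, 1]

/-- A spanning tree, for connectedness. -/
def par : Fin 16 → Fin 16 := ![0, 0, 0, 0, 1, 1, 2, 3, 4, 4, 6, 7, 7, 8, 9, 11]

theorem par_spec : ∀ v : Fin 16, v = 0 ∨ (G.Adj (par v) v ∧ (par v : ℕ) < v) := by decide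

theorem reach (n : ℕ) : ∀ v : Fin 16, (v : ℕ) ≤ n → G.Reachable 0 v := by
  induction n with
  | zero =>
    intro v hv
    have : v = 0 := Fin.ext (by simpa using hv)
    rw [this]
  | succ n ih =>
    intro v hv
    rcases par_spec v with h | ⟨h1, h2⟩
    · rw [h]
    · exact (ih (par v) (by omega)).trans h1.reachable

theorem connected : G.Connected := by
  rw [SimpleGraph.connected_iff]
  refine ⟨?_, ⟨0⟩⟩
  intro a b
  exact (reach a a le_rfl).symm.trans (reach b b le_rfl)

theorem regular : ∀ v, G.degree v = 3 := by decide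

theorem f_dom : IsMinusDominating G f := by
  refine ⟨by decide, ?_⟩
  unfold nbhdSum
  decide

theorem f_local : ∀ v, f v = -1 ∨ ∃ u, u ∈ insert v (G.neighborFinset v) ∧
    nbhdSum G f u = 1 := by
  unfold nbhdSum
  decide

theorem g_dom : IsSignedDominating G g := by
  refine ⟨by decide, ?_⟩
  unfold nbhdSum
  decide

/-- **Q1 is false**: there is a connected cubic graph (on 16 vertices) whose upper minus
domination number is strictly larger than its signed domination number. -/
theorem result : ∃ (G : SimpleGraph (Fin 16)) (_ : DecidableRel G.Adj),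
    G.Connected ∧ (∀ v, G.degree v = 3) ∧
    signedDominationNumber G < upperMinusDominationNumber G := by
  refine ⟨G, inferInstance, connected, regular, ?_⟩
  have h1 := sdn_le G g g_dom
  have h2 := le_umdn G f (minimal_of_local G f f_dom f_local)
  have h3 : weight g = 8 := by decide
  have h4 : weight f = 9 := by decide
  omega

end Pool.Agent.Results.MP_260dff_co.CubicCounterexample
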